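import Pool.Agent.Lib_helper57.PX.Mach
import Pool.Agent.Lib_helper57.PX.Ml

/-! # Oracles that contain their own multilinear extensions (MP_5c38ab_lc) -/

set_option autoImplicit false

namespace Pool.Agent.TA

open Pool.Agent.PX

/-- `O` contains its own multilinear extensions: if `pt u` is `(n, k, a, l)`, a point `a` of
`GF(2^k)^n` and a linear functional `l` of `GF(2^k)` over `GF(2)`, then `O (01u)` is the value of `l`
at the value at `a` of the multilinear extension of `O`, restricted to `{0,1}^n`. -/
def SelfExtended (pt : List Bool → (n : ℕ) × (k : ℕ) × (Fin n → GaloisField 2 k) ×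
    (GaloisField 2 k →ₗ[ZMod 2] ZMod 2)) (O : Lang) : Prop :=
  ∀ u, O (false :: true :: u) = decide ((pt u).2.2.2
    (mlx (fun s : Fin (pt u).1 → Bool => O (List.ofFn s)) (pt u).2.2.1) = 1)

end Pool.Agent.TA
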