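import Pool.Agent.Lib_helper57.PX.AffThm
import Pool.Agent.Lib_helper78.AT.Grow
import Pool.Agent.Lib_helper78.AT.Mixed

/-! # The three cases above every oracle, in oracles that contain their multilinear extensions -/

set_option autoImplicit false

namespace Pool.Agent.TA

open Pool.Agent Pool.Agent.RF Pool.Agent.RO Pool.Agent.ADV Pool.Agent.AEC Pool.Agent.CKP

/-- `O` contains its own multilinear extensions and `R` is in `P^O`. -/
def Aff (pt : List Bool → (n : ℕ) × (k : ℕ) × (Fin n → GaloisField 2 k) ×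
      (GaloisField 2 k →ₗ[ZMod 2] ZMod 2)) (R O : CK.Lang) : Prop :=
  CK.InP O R ∧ ∀ u, O (false :: true :: u) = decide ((pt u).2.2.2
    (PX.mlx (fun s : Fin (pt u).1 → Bool => O (List.ofFn s)) (pt u).2.2.1) = 1)

theorem aff_of {pt : List Bool → (n : ℕ) × (k : ℕ) × (Fin n → GaloisField 2 k) ×
      (GaloisField 2 k →ₗ[ZMod 2] ZMod 2)} {ext : List Bool → Finset (List Bool)}
    (hpar : ∀ O : CK.Lang, ∀ u, par (ext u) O = decide ((pt u).2.2.2
      (PX.mlx (fun s : Fin (pt u).1 → Bool => O (List.ofFn s)) (pt u).2.2.1) = 1))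
    {R H O : CK.Lang} (hO : IsClo ext R H O) : Aff pt R O := by
  refine ⟨?_, fun u => ?_⟩
  · have h6 : PTime O (fun x : List Bool => O (false :: false :: x)) :=
      PTime.ask (PTime.cons (PTime.const false) (PTime.cons (PTime.const false) PTime.id))
    have h7 : (fun x : List Bool => O (false :: false :: x)) = R := by
      funext x
      rw [hO.left]
    rw [h7] at h6
    exact inP_of h6
  · rw [hO.mid]
    exact hpar O u

theorem three (pt : List Bool → (n : ℕ) × (k : ℕ) × (Fin n → GaloisField 2 k) ×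
      (GaloisField 2 k →ₗ[ZMod 2] ZMod 2)) (hpt : ∀ u, (pt u).1 ≤ u.length) (R : CK.Lang) :
    (∃ O, Aff pt R O ∧ PLS.BothTrueExp O) ∧ ∃ O, Aff pt R O ∧ PLS.Q1True O ∧ PLS.ConFalse O := by
  obtain ⟨ext, hext, hpar⟩ := AFF.exists_mlx pt hpt
  constructor
  · obtain ⟨O, h1, h2, h3⟩ := AT.closed_true hext R
    exact ⟨O, aff_of (fun O u => hpar O u) h1, h2, fun B hB => h3 B hB.1⟩
  · obtain ⟨O, h1, h2, h3⟩ := AT.closed_mixed hext R
    exact ⟨O, aff_of (fun O u => hpar O u) h1, ⟨h2, fun B hB => (h3 B hB.1.toBase).2⟩,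
      h2, fun B hB => (h3 B hB.1.toBase).1⟩

end Pool.Agent.TA
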